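import Pool.Agent.Helper63.P705.NR.Goals

/-!
# Packet NR-GK2 (MP_705522_gt, helper63): tail integral, case `b ≤ .8 a`
-/

set_option autoImplicit false

namespace Pool.Agent.Helper50.NR

open MeasureTheory Set Filter Topology
open Pool.Agent.Helper53.PT
open Pool.Agent.Helper63.P705.NR

theorem exp338 : (29 : ℝ) ≤ Real.exp 3.38 := by
  have h1 : (2.7182818283 : ℝ) < Real.exp 1 := Real.exp_one_gt_d9
  have h2 : (1 : ℝ) + 0.38 + 0.38 ^ 2 / 2 ≤ Real.exp 0.38 :=
    Real.quadratic_le_exp_of_nonneg (by norm_num)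
  have h3 : Real.exp 3.38 = Real.exp 1 ^ 3 * Real.exp 0.38 := by
    rw [← Real.exp_nat_mul, ← Real.exp_add]
    norm_num
  rw [h3]
  have h4 : (20 : ℝ) ≤ Real.exp 1 ^ 3 := by
    calc (20 : ℝ) ≤ 2.7182818283 ^ 3 := by norm_num
      _ ≤ Real.exp 1 ^ 3 := by gcongr
  calc (29 : ℝ) ≤ 20 * (1 + 0.38 + 0.38 ^ 2 / 2) := by norm_num
    _ ≤ Real.exp 1 ^ 3 * Real.exp 0.38 := by gcongr

theorem exp_le_tau {v : ℝ} (hv : 2.6 ≤ v) : Real.exp (-(v ^ 2 / 2)) ≤ 0.0963 / v := by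
  have hv0 : 0 < v := by linarith
  rw [Real.exp_neg, inv_eq_one_div, div_le_div_iff₀ (Real.exp_pos _) hv0]
  have h1 : Real.exp (v ^ 2 / 2) = Real.exp 3.38 * Real.exp ((v ^ 2 - 6.76) / 2) := by
    rw [← Real.exp_add]
    congr 1
    ring
  have h2 : (v ^ 2 - 6.76) / 2 + 1 ≤ Real.exp ((v ^ 2 - 6.76) / 2) := Real.add_one_le_exp _
  have h3 : 0 ≤ (v ^ 2 - 6.76) / 2 + 1 := by nlinarith
  rw [h1]
  have h4 : 29 * ((v ^ 2 - 6.76) / 2 + 1) ≤ Real.exp 3.38 * Real.exp ((v ^ 2 - 6.76) / 2) :=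
    mul_le_mul exp338 h2 h3 (Real.exp_pos _).le
  nlinarith

theorem tau_rpow {v w : ℝ} (hw : 2.6 ≤ w) (hwv : w ≤ v) :
    0.0963 / w ≤ (0.0963 / v) ^ (w ^ 2 / v ^ 2) := by
  have hw0 : 0 < w := by linarith
  have hv0 : 0 < v := by linarith
  rw [← Real.log_le_log_iff (by positivity) (by positivity), Real.log_rpow (by positivity)]
  have e1 : Real.log (0.0963 / w) = -Real.log (w / 0.0963) := by
    rw [← Real.log_inv, inv_div]
  have e2 : Real.log (0.0963 / v) = -Real.log (v / 0.0963) := by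
    rw [← Real.log_inv, inv_div]
  have e3 : Real.log (v / 0.0963) = Real.log (w / 0.0963) + Real.log (v / w) := by
    rw [← Real.log_mul (by positivity) (by positivity)]
    congr 1
    field_simp
  have h1 : Real.log (v / w) ≤ v / w - 1 := Real.log_le_sub_one_of_pos (by positivity)
  have h2 : (1 : ℝ) ≤ Real.log (w / 0.0963) := by
    rw [Real.le_log_iff_exp_le (by positivity)]
    have : Real.exp 1 < 2.7182818286 := Real.exp_one_lt_d9
    rw [le_div_iff₀ (by norm_num)]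
    linarith
  rw [e1, e2, e3]
  have h4 : w ^ 2 * (Real.log (w / 0.0963) + Real.log (v / w)) ≤ v ^ 2 * Real.log (w / 0.0963) := by
    have h5 : w ^ 2 * Real.log (v / w) ≤ w * (v - w) := by
      calc w ^ 2 * Real.log (v / w) ≤ w ^ 2 * (v / w - 1) := by gcongr
        _ = w * (v - w) := by field_simp
    have h6 : w * (v - w) ≤ (v ^ 2 - w ^ 2) * Real.log (w / 0.0963) := by
      have h7 : w * (v - w) ≤ (v ^ 2 - w ^ 2) * 1 := by nlinarith
      have h8 : (v ^ 2 - w ^ 2) * 1 ≤ (v ^ 2 - w ^ 2) * Real.log (w / 0.0963) := by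
        apply mul_le_mul_of_nonneg_left h2
        nlinarith
      exact h7.trans h8
    nlinarith
  have h9 : w ^ 2 / v ^ 2 * (Real.log (w / 0.0963) + Real.log (v / w)) ≤ Real.log (w / 0.0963) := by
    rw [div_mul_eq_mul_div, div_le_iff₀ (by positivity)]
    linarith
  linarith [h9]

/-- one factor of the product -/
theorem factor {θ : ℝ} (h : NF θ) {s c ξ : ℝ} (hs : 0 ≤ s) (hsc : s ≤ c) (hc : 0 < c)
    (hξ : 0 < ξ) (hv : 2.6 ≤ √c * ξ) :
    |f0 θ (s * ξ ^ 2)| ≤ (0.0963 / (√c * ξ)) ^ (s / c) := by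
  have hsc' : 0 < √c := Real.sqrt_pos.2 hc
  have hcc : √c ^ 2 = c := Real.sq_sqrt hc.le
  have hss : √s ^ 2 = s := Real.sq_sqrt hs
  by_cases hcase : s * ξ ^ 2 ≤ 6.76
  · have h0 : 0 ≤ s * ξ ^ 2 := by positivity
    have h1 := h.ppos _ h0 hcase
    have h2 := h.pup _ h0
    rw [abs_of_pos h1]
    refine h2.trans ?_
    have h3 : Real.exp (-(s * ξ ^ 2) / 2) = Real.exp (-((√c * ξ) ^ 2 / 2)) ^ (s / c) := by
      rw [← Real.exp_mul]
      congr 1
      rw [mul_pow, hcc]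
      field_simp
    rw [h3]
    exact Real.rpow_le_rpow (Real.exp_pos _).le (exp_le_tau hv) (by positivity)
  · push Not at hcase
    have h1 : 2.6 ≤ √s * ξ := by
      by_contra hcon
      push Not at hcon
      have h2 : (√s * ξ) ^ 2 < 2.6 ^ 2 := by
        apply pow_lt_pow_left₀ hcon (by positivity) (by norm_num)
      rw [mul_pow, hss] at h2
      norm_num at h2 hcase
      linarith
    have h2 : √s * ξ ≤ √c * ξ := by
      have := Real.sqrt_le_sqrt hsc
      gcongr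
    have h3 := h.pabs _ h1
    rw [mul_pow, hss] at h3
    have h4 := tau_rpow h1 h2
    have h5 : (√s * ξ) ^ 2 / (√c * ξ) ^ 2 = s / c := by
      rw [mul_pow, mul_pow, hss, hcc]
      field_simp
    rw [h5] at h4
    exact h3.trans h4

/-- the bound for `f0` at the minimal coordinate -/
theorem small {θ : ℝ} (h : NF θ) {a b ξ : ℝ} (hb : 0 ≤ b) (hba : b ≤ 0.8 * a) (ha : 0 < a)
    (hξ : 0 < ξ) (hv : 2.6 ^ 2 ≤ a * ξ ^ 2) : |f0 θ (b * ξ ^ 2)| ≤ (a - b) / a := by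
  have hx : (a - b) / a = 1 - b / a := by field_simp
  have hx0 : 0 ≤ b / a := by positivity
  have hx1 : b / a ≤ 0.8 := by rw [div_le_iff₀ ha]; exact hba
  rw [hx]
  by_cases hcase : b * ξ ^ 2 ≤ 6.76
  · have h0 : 0 ≤ b * ξ ^ 2 := by positivity
    have h1 := h.ppos _ h0 hcase
    have h2 := h.pup _ h0
    rw [abs_of_pos h1]
    refine h2.trans ?_
    have h3 : Real.exp (-(b * ξ ^ 2) / 2) ≤ Real.exp (-(3.38 * (b / a))) := by
      apply Real.exp_le_exp.2
      have : b * ξ ^ 2 = (b / a) * (a * ξ ^ 2) := by field_simp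
      rw [this]
      have h4 : b / a * 2.6 ^ 2 ≤ b / a * (a * ξ ^ 2) := by gcongr
      norm_num at h4 ⊢
      linarith
    refine h3.trans ?_
    -- convexity
    have hc0 : 0 ≤ 1 - b / a / 0.8 := by
      have : b / a / 0.8 ≤ 1 := by rw [div_le_one (by norm_num)]; exact hx1
      linarith
    have hc1 : 0 ≤ b / a / 0.8 := by positivity
    have hconv := convexOn_exp.2 (Set.mem_univ (0 : ℝ)) (Set.mem_univ (-(2.704 : ℝ))) hc0 hc1 (by ring)
    simp only [smul_eq_mul, mul_zero, zero_add, Real.exp_zero, mul_one] at hconv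
    have e1 : b / a / 0.8 * -(2.704 : ℝ) = -(3.38 * (b / a)) := by ring
    rw [e1] at hconv
    have h5 : Real.exp (-(2.704 : ℝ)) ≤ 0.2 := by
      rw [Real.exp_neg, inv_le_comm₀ (Real.exp_pos _) (by norm_num)]
      have h6 : (2.7182818283 : ℝ) < Real.exp 1 := Real.exp_one_gt_d9
      have h7 : Real.exp 2.704 = Real.exp 1 * Real.exp 1.704 := by
        rw [← Real.exp_add]; norm_num
      have h8 : (1.704 : ℝ) + 1 ≤ Real.exp 1.704 := Real.add_one_le_exp _
      rw [h7]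
      norm_num at h8 ⊢
      nlinarith
    have h6 : b / a / 0.8 * Real.exp (-(2.704 : ℝ)) ≤ b / a / 0.8 * 0.2 := by gcongr
    have e2 : b / a / 0.8 * 0.2 = b / a / 0.8 - b / a := by ring
    rw [e2] at h6
    linarith
  · push Not at hcase
    have hbb : √b ^ 2 = b := Real.sq_sqrt hb
    have h1 : 2.6 ≤ √b * ξ := by
      by_contra hcon
      push Not at hcon
      have h2 : (√b * ξ) ^ 2 < 2.6 ^ 2 := by
        apply pow_lt_pow_left₀ hcon (by positivity) (by norm_num)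
      rw [mul_pow, hbb] at h2
      norm_num at h2 hcase
      linarith
    have h3 := h.pabs _ h1
    rw [mul_pow, hbb] at h3
    have h4 : 0.0963 / (√b * ξ) ≤ 0.2 := by
      rw [div_le_iff₀ (by linarith)]
      linarith
    linarith

theorem final_num {a : ℝ} (ha : 0 < a) (ha1 : a ≤ 1) :
    1 / a * (1 / √a) * Real.exp (-(max 0 (1 / a - 2.8))) ≤ 4.7 := by
  have hsa : 0 < √a := Real.sqrt_pos.2 ha
  set y := 1 / a with hy
  have hy1 : 1 ≤ y := by rw [hy, le_div_iff₀ ha]; linarith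
  have hy0 : 0 < y := by linarith
  have hsy : 1 / √a = √y := by rw [hy, Real.sqrt_div' _ ha.le, Real.sqrt_one]
  rw [hsy]
  have h28 : √(2.8 : ℝ) ≤ 1.6734 := by
    rw [Real.sqrt_le_left (by norm_num)]
    norm_num
  rcases le_total y 2.8 with h | h
  · have h1 : max 0 (y - 2.8) = 0 := max_eq_left (by linarith)
    rw [h1, neg_zero, Real.exp_zero, mul_one]
    have h2 : √y ≤ √2.8 := Real.sqrt_le_sqrt h
    calc y * √y ≤ 2.8 * 1.6734 := by
          apply mul_le_mul h (h2.trans h28) (Real.sqrt_nonneg _) (by norm_num)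
      _ ≤ 4.7 := by norm_num
  · have h1 : max 0 (y - 2.8) = y - 2.8 := max_eq_right (by linarith)
    rw [h1]
    have h2 : y / 2.8 ≤ Real.exp ((y - 2.8) / 2) := by
      have := Real.add_one_le_exp ((y - 2.8) / 2)
      have h3 : y / 2.8 ≤ (y - 2.8) / 2 + 1 := by
        rw [div_le_iff₀ (by norm_num)]
        linarith
      exact h3.trans this
    have h3 : (y / 2.8) ^ 2 ≤ Real.exp (y - 2.8) := by
      have h4 : Real.exp (y - 2.8) = Real.exp ((y - 2.8) / 2) ^ 2 := by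
        rw [← Real.exp_nat_mul]
        congr 1
        push_cast
        ring
      rw [h4]
      gcongr
    have h4 : √y ≤ √2.8 * (y / 2.8) := by
      have h5 : y ≤ 2.8 * (y / 2.8) ^ 2 := by
        have : 2.8 * (y / 2.8) ^ 2 = y * (y / 2.8) := by ring
        rw [this]
        have : (1 : ℝ) ≤ y / 2.8 := by rw [le_div_iff₀ (by norm_num)]; linarith
        nlinarith
      calc √y ≤ √(2.8 * (y / 2.8) ^ 2) := Real.sqrt_le_sqrt h5
        _ = √2.8 * (y / 2.8) := by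
          rw [Real.sqrt_mul (by norm_num), Real.sqrt_sq (by positivity)]
    rw [Real.exp_neg, ← div_eq_mul_inv, div_le_iff₀ (Real.exp_pos _)]
    have h6 : y * √y ≤ 2.8 * 1.6734 * (y / 2.8) ^ 2 := by
      calc y * √y ≤ y * (√2.8 * (y / 2.8)) := by gcongr
        _ ≤ y * (1.6734 * (y / 2.8)) := by gcongr
        _ = 2.8 * 1.6734 * (y / 2.8) ^ 2 := by ring
    calc y * √y ≤ 2.8 * 1.6734 * (y / 2.8) ^ 2 := h6
      _ ≤ 4.7 * Real.exp (y - 2.8) := by
        apply mul_le_mul (by norm_num) h3 (by positivity) (by norm_num)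

/-- the product -/
theorem prod_bound {θ : ℝ} (h : NF θ) {n : ℕ} {t : Fin n → ℝ} (hS : Sx t) {i j m : Fin n}
    (hi : ∀ l, t l ≤ t i) (hm1 : m ≠ i) (hm2 : m ≠ j) (hm : ∀ l, l ≠ i → t l ≤ t m)
    (hij : j ≠ i) (hc : 0 < t m) (hba : t j ≤ 0.8 * t i) {ξ : ℝ} (hξ : 0 < ξ) (hv : 2.6 ≤ √(t m) * ξ) :
    |∏ l ∈ (Finset.univ.erase i).erase j, f0 θ (t l * ξ ^ 2)| ≤
      0.0963 / (√(t m) * ξ) * Real.exp (-(max 0 (1 / t i - 2.8))) := by
  have ha : 0 < t i := hc.trans_le (hi m)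
  set τ := 0.0963 / (√(t m) * ξ) with hτ
  have hv0 : 0 < √(t m) * ξ := by linarith
  have hτ0 : 0 < τ := by positivity
  have hτ1 : τ ≤ Real.exp (-1) := by
    rw [hτ, div_le_iff₀ hv0, Real.exp_neg]
    have h1 : Real.exp 1 < 2.7182818286 := Real.exp_one_lt_d9
    have h2 : (0.3 : ℝ) ≤ (Real.exp 1)⁻¹ := by
      rw [le_inv_comm₀ (by norm_num) (Real.exp_pos _)]
      linarith [(by norm_num : (2.7182818286 : ℝ) ≤ (0.3 : ℝ)⁻¹)]
    nlinarith
  rw [Finset.abs_prod]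
  have h1 : ∏ l ∈ (Finset.univ.erase i).erase j, |f0 θ (t l * ξ ^ 2)| ≤
      ∏ l ∈ (Finset.univ.erase i).erase j, τ ^ (t l / t m) := by
    apply Finset.prod_le_prod
    · intro l _
      exact abs_nonneg _
    · intro l hl
      have hli : l ≠ i := by
        have := Finset.mem_of_mem_erase hl
        exact Finset.ne_of_mem_erase this
      exact factor h (hS.1 l) (hm l hli) hc hξ hv
  refine h1.trans ?_
  rw [← Real.rpow_sum_of_pos hτ0, ← Finset.sum_div]
  have hsum : ∑ l ∈ (Finset.univ.erase i).erase j, t l = 1 - t i - t j := by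
    rw [← hS.2, ← Finset.add_sum_erase _ _ (Finset.mem_univ i),
      ← Finset.add_sum_erase _ _ (Finset.mem_erase.2 ⟨hij, Finset.mem_univ j⟩)]
    ring
  have hge : t m ≤ ∑ l ∈ (Finset.univ.erase i).erase j, t l := by
    apply Finset.single_le_sum (fun l _ => hS.1 l)
    exact Finset.mem_erase.2 ⟨hm2, Finset.mem_erase.2 ⟨hm1, Finset.mem_univ m⟩⟩
  rw [hsum] at hge ⊢
  have hR1 : 1 ≤ (1 - t i - t j) / t m := by
    rw [le_div_iff₀ hc]
    linarith
  have hR2 : 1 / t i - 1.8 ≤ (1 - t i - t j) / t m := by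
    have h2 : (1 - t i - t j) / t i ≤ (1 - t i - t j) / t m := by
      apply div_le_div_of_nonneg_left (by linarith) hc (hi m)
    refine le_trans ?_ h2
    rw [le_div_iff₀ ha, sub_mul, one_div, inv_mul_cancel₀ ha.ne']
    linarith
  have hR : max 0 (1 / t i - 2.8) ≤ (1 - t i - t j) / t m - 1 := by
    apply max_le
    · linarith
    · linarith
  have e1 : τ ^ ((1 - t i - t j) / t m) = τ * τ ^ ((1 - t i - t j) / t m - 1) := by
    rw [← Real.rpow_one_add' hτ0.le (by linarith)]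
    congr 1
    ring
  rw [e1]
  apply mul_le_mul_of_nonneg_left _ hτ0.le
  calc τ ^ ((1 - t i - t j) / t m - 1) ≤ Real.exp (-1) ^ ((1 - t i - t j) / t m - 1) :=
        Real.rpow_le_rpow hτ0.le hτ1 (by linarith)
    _ = Real.exp (-((1 - t i - t j) / t m - 1)) := by
        rw [← Real.exp_mul]
        congr 1
        ring
    _ ≤ Real.exp (-(max 0 (1 / t i - 2.8))) := by
        apply Real.exp_le_exp.2
        linarith

/-- pointwise bound -/
theorem kj_bound {θ : ℝ} (h : NF θ) {n : ℕ} {t : Fin n → ℝ} (hS : Sx t) {i j m : Fin n}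
    (hi : ∀ l, t l ≤ t i) (hm1 : m ≠ i) (hm2 : m ≠ j) (hm : ∀ l, l ≠ i → t l ≤ t m)
    (hij : j ≠ i) (hc : 0 < t m) (hba : t j ≤ 0.8 * t i) {ξ : ℝ} (hξ : 0 < ξ) (hv : 2.6 ≤ √(t m) * ξ) :
    |KJ θ t i j ξ| ≤ (t i - t j) / t i * 4.0904 * (1 / √(t i)) * (0.0963 / √(t m)) *
      Real.exp (-(max 0 (1 / t i - 2.8))) * ξ ^ (-2 : ℝ) := by
  have ha : 0 < t i := hc.trans_le (hi m)
  have hb : 0 ≤ t j := hS.1 j
  have hsa : 0 < √(t i) := Real.sqrt_pos.2 ha
  have hsc : 0 < √(t m) := Real.sqrt_pos.2 hc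
  have haa : √(t i) ^ 2 = t i := Real.sq_sqrt ha.le
  have hcc : √(t m) ^ 2 = t m := Real.sq_sqrt hc.le
  have hbb : √(t j) ^ 2 = t j := Real.sq_sqrt hb
  have hua : 2.6 ≤ √(t i) * ξ := by
    refine hv.trans ?_
    have := Real.sqrt_le_sqrt (hi m)
    gcongr
  have hu0 : 0 < √(t i) * ξ := by linarith
  have hasq : 2.6 ^ 2 ≤ t i * ξ ^ 2 := by
    have : t i * ξ ^ 2 = (√(t i) * ξ) ^ 2 := by rw [mul_pow, haa]
    rw [this]
    gcongr
  have hprod := prod_bound h hS hi hm1 hm2 hm hij hc hba hξ hv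
  have hsm := small h hb hba ha hξ hasq
  have hGa0 : 0 ≤ GG θ (t i * ξ ^ 2) := h.gnn _ (by positivity)
  have hGb0 : 0 ≤ GG θ (t j * ξ ^ 2) := h.gnn _ (by positivity)
  have hGa : GG θ (t i * ξ ^ 2) ≤ 3.32 / (√(t i) * ξ) := by
    have := h.g2 (√(t i) * ξ) hu0.le
    rw [mul_pow, haa] at this
    rw [le_div_iff₀ hu0]
    linarith
  have hGb : GG θ (t j * ξ ^ 2) ≤ 1.6 := by
    have := h.g1 (√(t j) * ξ) (by positivity)
    rwa [mul_pow, hbb] at this
  have hfa : |f0 θ (t i * ξ ^ 2)| ≤ 0.0963 / (√(t i) * ξ) := by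
    have := h.pabs _ hua
    rwa [mul_pow, haa] at this
  have hr : 0.2 ≤ (t i - t j) / t i := by
    rw [le_div_iff₀ ha]
    linarith
  have h1 : |GG θ (t i * ξ ^ 2) * f0 θ (t j * ξ ^ 2) - f0 θ (t i * ξ ^ 2) * GG θ (t j * ξ ^ 2)| ≤
      (t i - t j) / t i * 4.0904 / (√(t i) * ξ) := by
    calc |GG θ (t i * ξ ^ 2) * f0 θ (t j * ξ ^ 2) - f0 θ (t i * ξ ^ 2) * GG θ (t j * ξ ^ 2)|
        ≤ |GG θ (t i * ξ ^ 2) * f0 θ (t j * ξ ^ 2)| + |f0 θ (t i * ξ ^ 2) * GG θ (t j * ξ ^ 2)| :=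
          abs_sub _ _
      _ = GG θ (t i * ξ ^ 2) * |f0 θ (t j * ξ ^ 2)| + |f0 θ (t i * ξ ^ 2)| * GG θ (t j * ξ ^ 2) := by
          rw [abs_mul, abs_mul, abs_of_nonneg hGa0, abs_of_nonneg hGb0]
      _ ≤ 3.32 / (√(t i) * ξ) * ((t i - t j) / t i) + 0.0963 / (√(t i) * ξ) * 1.6 := by
          gcongr
      _ ≤ 3.32 / (√(t i) * ξ) * ((t i - t j) / t i) +
            0.0963 / (√(t i) * ξ) * (8 * ((t i - t j) / t i)) := by
          gcongr
          linarith
      _ = (t i - t j) / t i * 4.0904 / (√(t i) * ξ) := by ring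
  unfold KJ
  rw [abs_mul]
  calc |GG θ (t i * ξ ^ 2) * f0 θ (t j * ξ ^ 2) - f0 θ (t i * ξ ^ 2) * GG θ (t j * ξ ^ 2)| *
        |∏ l ∈ (Finset.univ.erase i).erase j, f0 θ (t l * ξ ^ 2)|
      ≤ (t i - t j) / t i * 4.0904 / (√(t i) * ξ) *
        (0.0963 / (√(t m) * ξ) * Real.exp (-(max 0 (1 / t i - 2.8)))) := by
        apply mul_le_mul h1 hprod (abs_nonneg _)
        exact (abs_nonneg _).trans h1
    _ = _ := by
        rw [Real.rpow_neg hξ.le, show (2 : ℝ) = ((2 : ℕ) : ℝ) by norm_num, Real.rpow_natCast]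
        field_simp

theorem gK2 : GK2 := by
  intro θ h n t hS i j m hi hj hm1 hm2 hm hc hba hint
  have ha : 0 < t i := hc.trans_le (hi m)
  have hb : 0 ≤ t j := hS.1 j
  have hij : j ≠ i := by
    rintro rfl
    linarith
  have ha1 : t i ≤ 1 := by
    rw [← hS.2]
    exact Finset.single_le_sum (fun l _ => hS.1 l) (Finset.mem_univ i)
  have hsa : 0 < √(t i) := Real.sqrt_pos.2 ha
  have hsc : 0 < √(t m) := Real.sqrt_pos.2 hc
  set L := 2.6 / √(t m) with hL
  have hL0 : 0 < L := by positivity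
  set A := (t i - t j) / t i * 4.0904 * (1 / √(t i)) * (0.0963 / √(t m)) *
      Real.exp (-(max 0 (1 / t i - 2.8))) with hA
  have hmaj : IntegrableOn (fun ξ : ℝ => A * ξ ^ (-2 : ℝ)) (Ioi L) :=
    (integrableOn_Ioi_rpow_of_lt (by norm_num) hL0).const_mul A
  have hle : ∫ ξ in Ioi L, -(A * ξ ^ (-2 : ℝ)) ≤ ∫ ξ in Ioi L, KJ θ t i j ξ := by
    apply setIntegral_mono_on hmaj.neg hint measurableSet_Ioi
    intro ξ hξ
    have hξL : L < ξ := hξ
    have hξ0 : 0 < ξ := hL0.trans hξL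
    have hv : 2.6 ≤ √(t m) * ξ := by
      rw [hL, div_lt_iff₀ hsc] at hξL
      linarith
    have := kj_bound h hS hi hm1 hm2 hm hij hc hba hξ0 hv
    exact (abs_le.1 this).1
  refine le_trans ?_ hle
  rw [integral_neg, integral_const_mul, integral_Ioi_rpow_of_lt (by norm_num) hL0]
  have e1 : -L ^ ((-2 : ℝ) + 1) / ((-2 : ℝ) + 1) = 1 / L := by
    have : (-2 : ℝ) + 1 = -1 := by norm_num
    rw [this, Real.rpow_neg_one]
    field_simp
  rw [e1]
  have hab : 0 ≤ t i - t j := by linarith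
  have h3 := final_num ha ha1
  have e2 : A * (1 / L) = (t i - t j) * (4.0904 * 0.0963 / 2.6) *
      (1 / t i * (1 / √(t i)) * Real.exp (-(max 0 (1 / t i - 2.8)))) := by
    rw [hA, hL]
    field_simp
  rw [e2]
  have h4 : (t i - t j) * (4.0904 * 0.0963 / 2.6) *
      (1 / t i * (1 / √(t i)) * Real.exp (-(max 0 (1 / t i - 2.8)))) ≤
      (t i - t j) * (4.0904 * 0.0963 / 2.6) * 4.7 := by gcongr
  have h5 : (t i - t j) * (4.0904 * 0.0963 / 2.6) * 4.7 ≤ 0.72 * (t i - t j) := by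
    have : (4.0904 * 0.0963 / 2.6 * 4.7 : ℝ) ≤ 0.72 := by norm_num
    nlinarith
  linarith

end Pool.Agent.Helper50.NR
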